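import Pool.Agent.PFS.StmtsH
import Pool.Agent.Helper73_PFS.NFN

/-!
# PFS squad, row PRP: properness
-/

set_option autoImplicit false

open Matrix Filter Topology

namespace Pool.Agent.PFS.H3

theorem small_pow {F x : ℝ} {n : ℕ} (hn : 0 < n) (hF : 1 ≤ F) (hx : 0 ≤ x)
    (h1 : 1 ≤ F * x ^ n) : 1 ≤ F * x := by
  by_contra hlt
  push Not at hlt
  have hx1 : x ≤ 1 := by nlinarith
  have h2 : x ^ n ≤ x := pow_le_of_le_one hx hx1 hn.ne'
  nlinarith

/-- PRP. -/
theorem prp : PrpStmt := by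
  intro n C Γ h o ho M
  have hpc : PCone C := h.toPCone
  -- the constant beta
  have hβ : ∃ β : ℝ, 0 < β ∧ ∀ i : Fin n, β • o - Pi.single i (1 : ℝ) ∈ closure C ∧
      β • o + Pi.single i (1 : ℝ) ∈ closure C := by
    choose M hM1 hM2 using fun i : Fin n => hpc.absorb ho (Pi.single i (1 : ℝ))
    choose N hN1 hN2 using fun i : Fin n => hpc.absorb ho (-(Pi.single i (1 : ℝ)))
    refine ⟨1 + ∑ i, (M i + N i), ?_, fun i => ⟨?_, ?_⟩⟩
    · have : 0 ≤ ∑ i, (M i + N i) := Finset.sum_nonneg fun i _ => by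
        have := hM1 i; have := hN1 i; linarith
      linarith
    · have hle : M i + N i ≤ ∑ i, (M i + N i) :=
        Finset.single_le_sum (f := fun i => M i + N i) (fun i _ => by
          have := hM1 i; have := hN1 i; linarith) (Finset.mem_univ i)
      have h1 : (1 + ∑ i, (M i + N i) - M i) • o ∈ closure C :=
        hpc.cl_smul (subset_closure ho) (by have := hN1 i; linarith)
      have h2 := hpc.cl_add h1 (subset_closure (hM2 i))
      have e : (1 + ∑ i, (M i + N i) - M i) • o + (M i • o - Pi.single i (1 : ℝ)) =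
          (1 + ∑ i, (M i + N i)) • o - Pi.single i (1 : ℝ) := by
        rw [sub_smul]; abel
      rwa [e] at h2
    · have hle : M i + N i ≤ ∑ i, (M i + N i) :=
        Finset.single_le_sum (f := fun i => M i + N i) (fun i _ => by
          have := hM1 i; have := hN1 i; linarith) (Finset.mem_univ i)
      have h1 : (1 + ∑ i, (M i + N i) - N i) • o ∈ closure C :=
        hpc.cl_smul (subset_closure ho) (by have := hM1 i; linarith)
      have h2 := hpc.cl_add h1 (subset_closure (hN2 i))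
      have e : (1 + ∑ i, (M i + N i) - N i) • o + (N i • o - -(Pi.single i (1 : ℝ))) =
          (1 + ∑ i, (M i + N i)) • o + Pi.single i (1 : ℝ) := by
        rw [sub_smul]; abel
      rwa [e] at h2
  obtain ⟨β, hβ0, hβ⟩ := hβ
  obtain ⟨B, hB0, hB⟩ := hpc.normal
  obtain ⟨D, hD⟩ : ∃ D : ℝ, D = (2 * B + 1) * β * ‖o‖ := ⟨_, rfl⟩
  have hD0 : 0 ≤ D := by rw [hD]; positivity
  -- the bound for the entries
  have key : ∀ γ ∈ Γ, ∀ s R : ℝ, 0 < s → 0 ≤ R → R • o - s • act γ o ∈ closure C →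
      ∀ i j, |(γ : Matrix (Fin n) (Fin n) ℝ) i j| ≤ s⁻¹ * (R * D) := by
    intro γ hγ s R hs hR hcl i j
    have h1 := (h.sact_cl_iff hγ hs).mpr (hβ j).1
    have h2 := (h.sact_cl_iff hγ hs).mpr (hβ j).2
    rw [CC.act_sub, smul_sub, CC.act_smul, smul_comm s β] at h1
    rw [CC.act_add, smul_add, CC.act_smul, smul_comm s β] at h2
    have h0 := hpc.cl_smul hcl hβ0.le
    rw [smul_sub, smul_smul] at h0
    have h1' := hpc.cl_add h0 h1
    have h2' := hpc.cl_add h0 h2
    have e1 : (β * R) • o - β • s • act γ o + (β • s • act γ o - s • act γ (Pi.single j (1 : ℝ))) =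
        (β * R) • o - s • act γ (Pi.single j (1 : ℝ)) := by abel
    have e2 : (β * R) • o - β • s • act γ o + (β • s • act γ o + s • act γ (Pi.single j (1 : ℝ))) =
        (β * R) • o + s • act γ (Pi.single j (1 : ℝ)) := by abel
    rw [e1] at h1'
    rw [e2] at h2'
    have h3 : (2 * (β * R)) • o - ((β * R) • o + s • act γ (Pi.single j (1 : ℝ))) ∈ closure C := by
      have e : (2 * (β * R)) • o - ((β * R) • o + s • act γ (Pi.single j (1 : ℝ))) =
          (β * R) • o - s • act γ (Pi.single j (1 : ℝ)) := by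
        rw [two_mul, add_smul]; abel
      rw [e]; exact h1'
    have h4 := hB _ _ h2' h3
    have h5 : ‖s • act γ (Pi.single j (1 : ℝ))‖ ≤ R * D := by
      have e : s • act γ (Pi.single j (1 : ℝ)) =
          ((β * R) • o + s • act γ (Pi.single j (1 : ℝ))) - (β * R) • o := by abel
      rw [e]
      refine (norm_sub_le _ _).trans ?_
      rw [norm_smul, Real.norm_of_nonneg (by positivity : (0 : ℝ) ≤ 2 * (β * R))] at h4
      rw [norm_smul (β * R) o, Real.norm_of_nonneg (by positivity : (0 : ℝ) ≤ β * R), hD]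
      linarith
    have h6 : act γ (Pi.single j (1 : ℝ)) i = (γ : Matrix (Fin n) (Fin n) ℝ) i j := by
      unfold act
      rw [Matrix.mulVec_single_one]
      rfl
    have h7 : |(s • act γ (Pi.single j (1 : ℝ))) i| ≤ R * D := by
      rw [← Real.norm_eq_abs]
      exact (norm_le_pi_norm _ i).trans h5
    rw [Pi.smul_apply, h6, smul_eq_mul, abs_mul, abs_of_pos hs] at h7
    rw [inv_mul_eq_div, le_div_iff₀ hs]
    linarith
  rcases Nat.eq_zero_or_pos n with hn | hn
  · subst hn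
    exact Set.toFinite _
  -- the determinant
  have hdet : ∀ γ ∈ Γ, ∀ x : ℝ, 0 ≤ x →
      (∀ i j, |(γ : Matrix (Fin n) (Fin n) ℝ) i j| ≤ x) →
      1 ≤ ((Nat.factorial n : ℕ) : ℝ) * x := by
    intro γ hγ x hx hle
    have h2 := Matrix.det_le (A := ((γ : GL (Fin n) ℝ) : Matrix (Fin n) (Fin n) ℝ))
      (abv := (AbsoluteValue.abs : AbsoluteValue ℝ ℝ)) (x := x)
      (fun i j => by rw [AbsoluteValue.abs_apply]; exact hle i j)
    rw [AbsoluteValue.abs_apply, h.det _ hγ, Fintype.card_fin, nsmul_eq_mul] at h2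
    exact small_pow hn (by exact_mod_cast Nat.factorial_pos n) hx h2
  obtain ⟨F, hF⟩ : ∃ F : ℝ, F = ((Nat.factorial n : ℕ) : ℝ) := ⟨_, rfl⟩
  rw [← hF] at hdet
  have hF0 : 0 ≤ F := by rw [hF]; positivity
  obtain ⟨M', hM'⟩ : ∃ M' : ℝ, M' = max M 0 := ⟨_, rfl⟩
  have hM0 : 0 ≤ M' := by rw [hM']; exact le_max_right _ _
  have hMM : M ≤ M' := by rw [hM']; exact le_max_left _ _
  obtain ⟨E, hE⟩ : ∃ E : ℝ, E = F * D * (M' * D) := ⟨_, rfl⟩
  -- finiteness
  have hcl : IsClosed (Γ : Set (GL (Fin n) ℝ)) := by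
    have := h.disc
    exact Subgroup.isClosed_of_discrete
  have hcomp := (H73.compact_bdd (n := n) E).inter_right hcl
  have hfin : ({g : GL (Fin n) ℝ |
      (∀ i j, (g : Matrix (Fin n) (Fin n) ℝ) i j ∈ Set.Icc (-E) E) ∧
      ∀ i j, ((g⁻¹ : GL (Fin n) ℝ) : Matrix (Fin n) (Fin n) ℝ) i j ∈ Set.Icc (-E) E} ∩
      (Γ : Set (GL (Fin n) ℝ))).Finite := by
    refine hcomp.finite ?_
    have hd : IsDiscrete (Γ : Set (GL (Fin n) ℝ)) := ⟨h.disc⟩
    exact hd.mono Set.inter_subset_right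
  refine hfin.subset ?_
  rintro γ ⟨hγ, t, ht, hc1, hc2⟩
  have hγi := Γ.inv_mem hγ
  have h1 : M' • o - t • act γ o ∈ closure C := by
    have e : M' • o - t • act γ o = (M' - M) • o + (M • o - t • act γ o) := by
      rw [sub_smul]; abel
    rw [e]
    exact hpc.cl_add (hpc.cl_smul (subset_closure ho) (by linarith)) hc2
  have h2 : t • o - (1 : ℝ) • act γ⁻¹ o ∈ closure C := by
    have h3 := (h.act_cl_iff hγi).mpr hc1
    rwa [CC.act_sub, CC.act_smul, CC.act_inv_act, ← one_smul ℝ (act γ⁻¹ o)] at h3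
  have k1 := key γ hγ t M' ht hM0 h1
  have k2 := key γ⁻¹ hγi 1 t one_pos ht.le h2
  rw [inv_one] at k2
  have htinv : 0 < t⁻¹ := inv_pos.mpr ht
  have d1 := hdet γ hγ (t⁻¹ * (M' * D)) (by positivity) k1
  have d2 := hdet γ⁻¹ hγi (1 * (t * D)) (by positivity) k2
  -- bounds of `t`
  have t1 : t ≤ F * (M' * D) := by
    have := mul_le_mul_of_nonneg_left d1 ht.le
    have e : t * (F * (t⁻¹ * (M' * D))) = F * (M' * D) := by field_simp
    rw [e] at this
    linarith
  have t2 : t⁻¹ ≤ F * D := by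
    have := mul_le_mul_of_nonneg_left d2 htinv.le
    have e : t⁻¹ * (F * (1 * (t * D))) = F * D := by field_simp
    rw [e] at this
    linarith
  refine ⟨⟨fun i j => ?_, fun i j => ?_⟩, hγ⟩
  · have h3 := k1 i j
    have h4 : t⁻¹ * (M' * D) ≤ E := by
      rw [hE]
      exact mul_le_mul_of_nonneg_right t2 (by positivity)
    have h5 := h3.trans h4
    exact ⟨(abs_le.mp h5).1, (abs_le.mp h5).2⟩
  · have h3 := k2 i j
    have h4 : 1 * (t * D) ≤ E := by
      rw [hE, one_mul]
      have := mul_le_mul_of_nonneg_right t1 hD0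
      linarith
    have h5 := h3.trans h4
    exact ⟨(abs_le.mp h5).1, (abs_le.mp h5).2⟩

end Pool.Agent.PFS.H3
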